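import Pool.Agent.J4H74.Pfa.Nar

/-!
# MP_c5a58e_co: the four Pfaffian evaluations hold for every `n`

The matrices are Gram matrices of the skew form `(f, g) ↦ L (f g' - f' g)`, with `L` the moment
functional of the sequence. In a basis of monic Chebyshev type polynomials the form is tridiagonal.
-/

set_option autoImplicit false

namespace Pool.Agent.Results.MP_c5a58e_co.AllFourPfaffians

open Finset Polynomial Pool.Agent.J4H74.Pfa

/-- Catalan numbers `C_k = 1/(k+1) * binom(2k, k)`. -/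
def catalanNumber (k : ℕ) : ℚ := (1 / ((k : ℚ) + 1)) * ((2 * k).choose k : ℚ)

/-- Motzkin numbers `M_n = ∑_{k ≤ n} binom(n, 2k) C_k`. -/
def motzkin (n : ℕ) : ℚ := ∑ k ∈ range (n + 1), (n.choose (2 * k) : ℚ) * catalanNumber k

/-- Central Delannoy numbers `D_n = ∑_{k ≤ n} binom(n, k) binom(n + k, k)`. -/
def delannoy (n : ℕ) : ℚ := ∑ k ∈ range (n + 1), (n.choose k : ℚ) * ((n + k).choose k : ℚ)

/-- Schroeder numbers `S_n = ∑_{k ≤ n} binom(n + k, 2k) C_k`. -/
def schroeder (n : ℕ) : ℚ :=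
  ∑ k ∈ range (n + 1), ((n + k).choose (2 * k) : ℚ) * catalanNumber k

/-- Narayana polynomials: `N_0 = 1`, and
`N_n = ∑_{k ≤ n} 1/n * binom(n, k) * binom(n, k - 1) * a^k` for `n ≥ 1`, with
`binom(n, -1) = 0`; the variable `a` is the polynomial variable `X`. -/
noncomputable def narayana (n : ℕ) : ℚ[X] :=
  if n = 0 then 1 else ∑ k ∈ range (n + 1),
    C ((1 / (n : ℚ)) * (n.choose k : ℚ) * (if k = 0 then 0 else (n.choose (k - 1) : ℚ))) * X ^ k

/-- The Pfaffian of a `2n × 2n` matrix over a commutative `ℚ`-algebra,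
`1 / (2^n n!) * ∑_σ sgn(σ) ∏_{i=1}^n A_{σ(2i-1), σ(2i)}`; rows and columns are indexed from zero, so
the positions `2i-1, 2i` (`1 ≤ i ≤ n`) are the positions `2i, 2i+1` (`0 ≤ i < n`). -/
noncomputable def Pf {R : Type} [CommRing R] [Algebra ℚ R] (n : ℕ)
    (A : Matrix (Fin (2 * n)) (Fin (2 * n)) R) : R :=
  (1 / ((2 : ℚ) ^ n * (n.factorial : ℚ))) •
    ∑ σ : Equiv.Perm (Fin (2 * n)), ((Equiv.Perm.sign σ : ℤ) : R) *
      ∏ i : Fin n, A (σ ⟨2 * i.val, by omega⟩) (σ ⟨2 * i.val + 1, by omega⟩)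

/-- The matrix `((j - i) x_{i+j-s})`, `1 ≤ i, j ≤ 2n`: the index `i` of the paper is `i.val + 1`.
For `s = 3` the entry at `i = j = 1` is `0 * x_0`, that is `0`. -/
def skewHankel {R : Type} [CommRing R] (s : ℕ) (x : ℕ → R) (n : ℕ) :
    Matrix (Fin (2 * n)) (Fin (2 * n)) R :=
  Matrix.of fun i j => (((j.val + 1 : ℕ) : R) - ((i.val + 1 : ℕ) : R)) *
    x ((i.val + 1) + (j.val + 1) - s)

theorem Pf_eq {R : Type} [CommRing R] [Algebra ℚ R] (n : ℕ)
    (A : Matrix (Fin (2 * n)) (Fin (2 * n)) R) (x : R)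
    (h : pfS n A = 2 ^ n * (n.factorial : R) * x) : Pf n A = x := by
  have h1 : Pf n A = (1 / ((2 : ℚ) ^ n * (n.factorial : ℚ))) • pfS n A := rfl
  have h2 : (2 : R) ^ n * (n.factorial : R) = algebraMap ℚ R ((2 : ℚ) ^ n * (n.factorial : ℚ)) := by
    rw [map_mul, map_pow, map_natCast]
    congr 2
    exact (map_ofNat (algebraMap ℚ R) 2).symm
  rw [h1, h, h2, Algebra.smul_def, ← mul_assoc, ← map_mul]
  have h3 : (1 / ((2 : ℚ) ^ n * (n.factorial : ℚ))) * ((2 : ℚ) ^ n * (n.factorial : ℚ)) = 1 := by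
    have : (n.factorial : ℚ) ≠ 0 := by exact_mod_cast Nat.factorial_ne_zero n
    field_simp
  rw [h3, map_one, one_mul]

theorem skewHankel_three {R : Type} [CommRing R] (x : ℕ → R) (n : ℕ) (L : R[X] →ₗ[R] R)
    (hL : ∀ m, L (X ^ m) = x m) : skewHankel 3 x n = Matrix.of fun i j : Fin (2 * n) =>
      ((j.val : R) - (i.val : R)) * L (X ^ (i.val + j.val - 1)) := by
  ext i j
  simp only [skewHankel, Matrix.of_apply]
  rw [hL, show i.val + 1 + (j.val + 1) - 3 = i.val + j.val - 1 by omega]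
  push_cast
  ring

theorem skewHankel_two {R : Type} [CommRing R] (x : ℕ → R) (n : ℕ) (L : R[X] →ₗ[R] R)
    (hL : ∀ m, L (X ^ m) = x (m + 1)) : skewHankel 2 x n = Matrix.of fun i j : Fin (2 * n) =>
      ((j.val : R) - (i.val : R)) * L (X ^ (i.val + j.val - 1)) := by
  ext i j
  simp only [skewHankel, Matrix.of_apply]
  rw [hL]
  rcases Nat.eq_zero_or_pos (i.val + j.val) with h | h
  · have h1 : i.val = 0 := by omega
    have h2 : j.val = 0 := by omega
    rw [h1, h2]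
    simp
  · rw [show i.val + 1 + (j.val + 1) - 2 = i.val + j.val - 1 + 1 by omega]
    push_cast
    ring

theorem prod_pow {R : Type} [CommRing R] (a : R) (n : ℕ) :
    ∏ i ∈ range n, (a * ((4 * (i : R) + 1) * a ^ (2 * i))) =
      a ^ (n ^ 2) * ∏ i ∈ range n, (4 * (i : R) + 1) := by
  induction n with
  | zero => simp
  | succ n ih =>
    rw [Finset.prod_range_succ, ih, Finset.prod_range_succ,
      show (n + 1) ^ 2 = n ^ 2 + 2 * n + 1 by ring, pow_succ, pow_add]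
    ring

theorem prod_shift (m : ℕ) : ∏ k ∈ Icc 1 m, (4 * (k : ℚ) - 1) =
    ∏ i ∈ range m, (4 * ((i : ℚ) + 1) - 1) := by
  induction m with
  | zero => simp
  | succ m ih =>
    rw [Finset.prod_Icc_succ_top (by omega), ih, Finset.prod_range_succ]
    push_cast
    rfl

/-- All four Pfaffian identities hold for every `n ≥ 1`. -/
theorem result : ∀ n : ℕ, 1 ≤ n →
    Pf n (skewHankel 3 motzkin n) = ∏ k ∈ range n, (4 * (k : ℚ) + 1) ∧
    Pf n (skewHankel 3 delannoy n) =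
      2 ^ (n ^ 2 - 1) * (2 * (n : ℚ) - 1) * ∏ k ∈ Icc 1 (n - 1), (4 * (k : ℚ) - 1) ∧
    Pf n (skewHankel 2 schroeder n) = 2 ^ (n ^ 2) * ∏ k ∈ range n, (4 * (k : ℚ) + 1) ∧
    Pf n (skewHankel 2 narayana n) = X ^ (n ^ 2) * ∏ k ∈ range n, (4 * (k : ℚ[X]) + 1) := by
  intro n hn
  refine ⟨?_, ?_, ?_, ?_⟩
  · apply Pf_eq
    rw [skewHankel_three motzkin n (LA (1 : ℚ) 1 1) mom_motz, evalA]
    congr 1
    refine Finset.prod_congr rfl fun i _ => ?_
    rw [one_pow]
    ring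
  · apply Pf_eq
    rw [skewHankel_three delannoy n (LB (2 : ℚ) 3) mom_dela, evalB 2 3 n hn, prod_shift]
    congr 3
    rw [← pow_add]
    congr 1
    obtain ⟨m, rfl⟩ := Nat.exists_eq_add_of_le hn
    have e1 : (1 + m) ^ 2 - 1 = m ^ 2 + 2 * m := by
      have : (1 + m) ^ 2 = m ^ 2 + 2 * m + 1 := by ring
      omega
    rw [e1, show 1 + m - 1 = m by omega]
    ring
  · apply Pf_eq
    rw [skewHankel_two schroeder n (LA (2 : ℚ) (1 + 2) 2), evalA, prod_pow]
    intro m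
    rw [mom_nar]
    exact (schr_eq m).symm
  · apply Pf_eq
    rw [skewHankel_two narayana n (LA (X : ℚ[X]) (1 + X) X), evalA, prod_pow]
    intro m
    rw [mom_nar]
    exact (nara_succ m).symm

end Pool.Agent.Results.MP_c5a58e_co.AllFourPfaffians
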